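import Mathlib

set_option autoImplicit false

namespace Pool.Agent.Hhelper99.HFact

open Finset

/-- `A` is branching at all scales of `S`: every element `a` of `A` has, for every scale `i ∈ S`,
a partner `a' ∈ A` which agrees with `a` in the first `i` binary digits and differs in the next. -/
def Branch (A : Set ℕ) (S : Set ℕ) : Prop :=
  A.Nonempty ∧ ∀ a ∈ A, ∀ i ∈ S, ∃ a' ∈ A, a' ≡ a + 2 ^ i [MOD 2 ^ (i + 1)]

theorem Branch.mono {A S T : Set ℕ} (hA : Branch A S) (h : T ⊆ S) : Branch A T :=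
  ⟨hA.1, fun a ha i hi => hA.2 a ha i (h hi)⟩

theorem Branch.add {A B S T : Set ℕ} (hA : Branch A S) (hB : Branch B T) :
    Branch {x | ∃ a ∈ A, ∃ b ∈ B, x = a + b} (S ∪ T) := by
  refine ⟨?_, ?_⟩
  · obtain ⟨a, ha⟩ := hA.1
    obtain ⟨b, hb⟩ := hB.1
    exact ⟨a + b, a, ha, b, hb, rfl⟩
  · rintro x ⟨a, ha, b, hb, rfl⟩ i hi
    rcases hi with hi | hi
    · obtain ⟨a', ha', h⟩ := hA.2 a ha i hi
      refine ⟨a' + b, ⟨a', ha', b, hb, rfl⟩, ?_⟩
      have h2 := h.add_right b
      rwa [show a + 2 ^ i + b = a + b + 2 ^ i by ring] at h2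
    · obtain ⟨b', hb', h⟩ := hB.2 b hb i hi
      refine ⟨a + b', ⟨a, ha, b', hb', rfl⟩, ?_⟩
      have h2 := h.add_left a
      rwa [show a + (b + 2 ^ i) = a + b + 2 ^ i by ring] at h2

theorem Branch.shift {A S : Set ℕ} (hA : Branch A S) (e : ℕ) :
    Branch ((fun x => 2 ^ e * x) '' A) ((fun i => i + e) '' S) := by
  refine ⟨hA.1.image _, ?_⟩
  rintro x ⟨a, ha, rfl⟩ i ⟨s, hs, rfl⟩
  obtain ⟨a', ha', h⟩ := hA.2 a ha s hs
  refine ⟨2 ^ e * a', ⟨a', ha', rfl⟩, ?_⟩
  have h2 := h.mul_left' (2 ^ e)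
  have e1 : 2 ^ e * (a + 2 ^ s) = 2 ^ e * a + 2 ^ (s + e) := by ring
  have e2 : 2 ^ e * 2 ^ (s + 1) = 2 ^ (s + e + 1) := by ring
  rw [e1, e2] at h2
  exact h2

theorem Branch.cover {A : Set ℕ} {J : ℕ} (hA : Branch A (Set.Iio J)) (r : ℕ) :
    ∃ a ∈ A, a ≡ r [MOD 2 ^ J] := by
  have key : ∀ j, j ≤ J → ∃ a ∈ A, a ≡ r [MOD 2 ^ j] := by
    intro j
    induction j with
    | zero =>
      intro _
      obtain ⟨a, ha⟩ := hA.1
      exact ⟨a, ha, by simp [Nat.modEq_one]⟩
    | succ j ih =>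
      intro hj
      obtain ⟨a, ha, h⟩ := ih (by omega)
      by_cases h' : a ≡ r [MOD 2 ^ (j + 1)]
      · exact ⟨a, ha, h'⟩
      · obtain ⟨a', ha', h''⟩ := hA.2 a ha j (Set.mem_Iio.2 (by omega))
        refine ⟨a', ha', h''.trans ?_⟩
        rw [Nat.modEq_iff_dvd] at h h' ⊢
        obtain ⟨t, ht⟩ := h
        push_cast at ht h' ⊢
        rcases Int.even_or_odd' t with ⟨u, hu | hu⟩
        · exfalso
          apply h'
          refine ⟨u, ?_⟩
          rw [ht, hu]
          ring
        · refine ⟨u, ?_⟩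
          have : (r : ℤ) - (a + 2 ^ j) = 2 ^ j * t - 2 ^ j := by rw [← ht]; ring
          rw [this, hu]
          ring
  exact key J le_rfl

open Classical in
/-- the family of sets of scales at which some subset of `W` is branching -/
noncomputable def Tset (j : ℕ) (W : Finset ℕ) : Finset (Finset ℕ) :=
  (Finset.range j).powerset.filter (fun S => ∃ A : Set ℕ, A ⊆ (↑W : Set ℕ) ∧ Branch A (↑S : Set ℕ))

theorem mem_Tset {j : ℕ} {W S : Finset ℕ} :
    S ∈ Tset j W ↔ S ⊆ Finset.range j ∧ ∃ A : Set ℕ, A ⊆ (↑W : Set ℕ) ∧ Branch A (↑S : Set ℕ) := by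
  unfold Tset
  simp only [Finset.mem_filter, Finset.mem_powerset]

/-- the half of `W` with last digit `b`, digit removed -/
def half (W : Finset ℕ) (b : ℕ) : Finset ℕ := (W.filter (fun w => w % 2 = b)).image (fun w => w / 2)

theorem half_card (W : Finset ℕ) : (half W 0).card + (half W 1).card = W.card := by
  unfold half
  rw [Finset.card_image_of_injOn, Finset.card_image_of_injOn]
  · have h := Finset.card_filter_add_card_filter_not (s := W) (fun w => w % 2 = 0)
    rw [← h]
    congr 2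
    ext w
    simp only [Finset.mem_filter]
    constructor
    · rintro ⟨h1, h2⟩
      exact ⟨h1, by omega⟩
    · rintro ⟨h1, h2⟩
      exact ⟨h1, by omega⟩
  · intro x hx y hy hxy
    simp only [Finset.coe_filter, Set.mem_ofPred_eq] at hx hy
    have : x / 2 = y / 2 := hxy
    omega
  · intro x hx y hy hxy
    simp only [Finset.coe_filter, Set.mem_ofPred_eq] at hx hy
    have : x / 2 = y / 2 := hxy
    omega

theorem mem_half {W : Finset ℕ} {b v : ℕ} (hb : b < 2) : v ∈ half W b ↔ 2 * v + b ∈ W := by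
  unfold half
  simp only [Finset.mem_image, Finset.mem_filter]
  constructor
  · rintro ⟨w, ⟨hw, hwb⟩, rfl⟩
    have : 2 * (w / 2) + b = w := by omega
    rwa [this]
  · intro h
    exact ⟨2 * v + b, ⟨h, by omega⟩, by omega⟩

theorem Branch.lift {A S : Set ℕ} (hA : Branch A S) (b : ℕ) :
    Branch ((fun x => 2 * x + b) '' A) (Nat.succ '' S) := by
  refine ⟨hA.1.image _, ?_⟩
  rintro x ⟨a, ha, rfl⟩ i ⟨s, hs, rfl⟩
  obtain ⟨a', ha', h⟩ := hA.2 a ha s hs
  refine ⟨2 * a' + b, ⟨a', ha', rfl⟩, ?_⟩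
  have h2 := (h.mul_left' 2).add_right b
  have e1 : 2 * (a + 2 ^ s) + b = 2 * a + b + 2 ^ (s.succ) := by
    rw [Nat.succ_eq_add_one]; ring
  have e2 : 2 * 2 ^ (s + 1) = 2 ^ (s.succ + 1) := by
    rw [Nat.succ_eq_add_one]; ring
  rw [e1, e2] at h2
  exact h2

theorem Branch.join {A B S : Set ℕ} (hA : Branch A S) (hB : Branch B S) :
    Branch (((fun x => 2 * x + 0) '' A) ∪ ((fun x => 2 * x + 1) '' B)) (insert 0 (Nat.succ '' S)) := by
  have h1 := hA.lift 0
  have h2 := hB.lift 1
  refine ⟨h1.1.inl, ?_⟩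
  rintro x hx i hi
  rcases Set.mem_insert_iff.1 hi with rfl | hi
  · rcases hx with ⟨a, ha, rfl⟩ | ⟨b, hb, rfl⟩
    · obtain ⟨b, hb⟩ := hB.1
      refine ⟨2 * b + 1, Or.inr ⟨b, hb, rfl⟩, ?_⟩
      show (2 * b + 1) % 2 ^ (0 + 1) = (2 * a + 0 + 2 ^ 0) % 2 ^ (0 + 1)
      have e1 : (2 : ℕ) ^ (0 + 1) = 2 := rfl
      have e2 : (2 : ℕ) ^ 0 = 1 := rfl
      rw [e1, e2]
      omega
    · obtain ⟨a, ha⟩ := hA.1
      refine ⟨2 * a + 0, Or.inl ⟨a, ha, rfl⟩, ?_⟩
      show (2 * a + 0) % 2 ^ (0 + 1) = (2 * b + 1 + 2 ^ 0) % 2 ^ (0 + 1)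
      have e1 : (2 : ℕ) ^ (0 + 1) = 2 := rfl
      have e2 : (2 : ℕ) ^ 0 = 1 := rfl
      rw [e1, e2]
      omega
  · rcases hx with hx | hx
    · obtain ⟨a', ha', h⟩ := h1.2 x hx i hi
      exact ⟨a', Or.inl ha', h⟩
    · obtain ⟨a', ha', h⟩ := h2.2 x hx i hi
      exact ⟨a', Or.inr ha', h⟩

/-- Order shattering: a set `W` of numbers below `2 ^ j` has subsets branching at no fewer than
`|W|` sets of scales. -/
theorem order_shatter (j : ℕ) : ∀ W : Finset ℕ, (∀ w ∈ W, w < 2 ^ j) →
    W.card ≤ (Tset j W).card := by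
  induction j with
  | zero =>
    intro W hW
    rcases W.eq_empty_or_nonempty with rfl | ⟨w, hw⟩
    · simp
    · have hW1 : W.card ≤ 1 := by
        rw [Finset.card_le_one]
        intro a ha b hb
        have h1 := hW a ha
        have h2 := hW b hb
        simp at h1 h2
        omega
      refine hW1.trans ?_
      rw [Nat.one_le_iff_ne_zero, ← Nat.pos_iff_ne_zero, Finset.card_pos]
      refine ⟨∅, mem_Tset.2 ⟨by simp, {w}, by simpa using hw, ⟨w, rfl⟩, ?_⟩⟩
      intro a _ i hi
      simp at hi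
  | succ j ih =>
    intro W hW
    have hV : ∀ b < 2, ∀ v ∈ half W b, v < 2 ^ j := by
      intro b hb v hv
      rw [mem_half hb] at hv
      have := hW _ hv
      rw [pow_succ] at this
      omega
    have h0 := ih (half W 0) (hV 0 (by norm_num))
    have h1 := ih (half W 1) (hV 1 (by norm_num))
    classical
    set T0 := Tset j (half W 0) with hT0
    set T1 := Tset j (half W 1) with hT1
    have hsub : ((T0 ∪ T1).image (fun S => S.image Nat.succ)) ∪
        ((T0 ∩ T1).image (fun S => insert 0 (S.image Nat.succ))) ⊆ Tset (j + 1) W := by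
      have hrange : ∀ S : Finset ℕ, S ⊆ Finset.range j → S.image Nat.succ ⊆ Finset.range (j + 1) := by
        intro S hS x hx
        rw [Finset.mem_image] at hx
        obtain ⟨s, hs, rfl⟩ := hx
        have := Finset.mem_range.1 (hS hs)
        rw [Finset.mem_range]
        omega
      have hsubA : ∀ b < 2, ∀ A : Set ℕ, A ⊆ (↑(half W b) : Set ℕ) →
          (fun x => 2 * x + b) '' A ⊆ (↑W : Set ℕ) := by
        intro b hb A hA x hx
        obtain ⟨a, ha, rfl⟩ := hx
        have := hA ha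
        rw [Finset.mem_coe, mem_half hb] at this
        exact this
      intro S' hS'
      rw [Finset.mem_union, Finset.mem_image, Finset.mem_image] at hS'
      rcases hS' with ⟨S, hS, rfl⟩ | ⟨S, hS, rfl⟩
      · rw [Finset.mem_union, hT0, hT1, mem_Tset, mem_Tset] at hS
        rcases hS with ⟨hSr, A, hA, hB⟩ | ⟨hSr, A, hA, hB⟩
        · refine mem_Tset.2 ⟨hrange S hSr, _, hsubA 0 (by norm_num) A hA, ?_⟩
          rw [Finset.coe_image]
          exact hB.lift 0
        · refine mem_Tset.2 ⟨hrange S hSr, _, hsubA 1 (by norm_num) A hA, ?_⟩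
          rw [Finset.coe_image]
          exact hB.lift 1
      · rw [Finset.mem_inter, hT0, hT1, mem_Tset, mem_Tset] at hS
        obtain ⟨⟨hSr, A, hA, hB⟩, ⟨_, A', hA', hB'⟩⟩ := hS
        refine mem_Tset.2 ⟨?_, _, Set.union_subset (hsubA 0 (by norm_num) A hA)
          (hsubA 1 (by norm_num) A' hA'), ?_⟩
        · intro x hx
          rw [Finset.mem_insert] at hx
          rcases hx with rfl | hx
          · simp
          · exact hrange S hSr hx
        · rw [Finset.coe_insert, Finset.coe_image]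
          exact hB.join hB'
    have hinj1 : Function.Injective (fun S : Finset ℕ => S.image Nat.succ) :=
      Finset.image_injective Nat.succ_injective
    have hz : ∀ S : Finset ℕ, 0 ∉ S.image Nat.succ := by
      intro S h
      rw [Finset.mem_image] at h
      obtain ⟨s, _, hs⟩ := h
      exact Nat.succ_ne_zero s hs
    have hinj2 : Function.Injective (fun S : Finset ℕ => insert 0 (S.image Nat.succ)) := by
      intro S S' h
      apply hinj1
      have h' : insert 0 (S.image Nat.succ) = insert 0 (S'.image Nat.succ) := h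
      have := congrArg (fun X => X.erase 0) h'
      simpa [Finset.erase_insert (hz S), Finset.erase_insert (hz S')] using this
    have hdisj : Disjoint ((T0 ∪ T1).image (fun S => S.image Nat.succ))
        ((T0 ∩ T1).image (fun S => insert 0 (S.image Nat.succ))) := by
      rw [Finset.disjoint_left]
      intro X hX hX'
      rw [Finset.mem_image] at hX hX'
      obtain ⟨S, _, rfl⟩ := hX
      obtain ⟨S', _, h⟩ := hX'
      apply hz S
      rw [← h]
      exact Finset.mem_insert_self _ _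
    have hcard := Finset.card_le_card hsub
    rw [Finset.card_union_of_disjoint hdisj, Finset.card_image_of_injective _ hinj1,
      Finset.card_image_of_injective _ hinj2, Finset.card_union_add_card_inter] at hcard
    rw [← half_card W]
    omega

/-- number of small subsets -/
theorem card_small_subsets (j d : ℕ) (F : Finset (Finset ℕ)) (hF : ∀ S ∈ F, S ⊆ Finset.range j)
    (hd : ∀ S ∈ F, S.card ≤ d) : F.card ≤ (j + 1) ^ d := by
  have h1 : F ⊆ (Finset.range (d + 1)).biUnion (fun s => (Finset.range j).powersetCard s) := by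
    intro S hS
    rw [Finset.mem_biUnion]
    exact ⟨S.card, Finset.mem_range.2 (by have := hd S hS; omega),
      Finset.mem_powersetCard.2 ⟨hF S hS, rfl⟩⟩
  refine (Finset.card_le_card h1).trans (Finset.card_biUnion_le.trans ?_)
  rw [add_pow]
  apply Finset.sum_le_sum
  intro s hs
  have hs' : s ≤ d := by
    have := Finset.mem_range.1 hs
    omega
  rw [Finset.card_powersetCard, Finset.card_range, one_pow, mul_one]
  have h2 : j.choose s ≤ j ^ s := Nat.choose_le_pow j s
  have h3 : 1 ≤ d.choose s := Nat.choose_pos hs'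
  calc j.choose s ≤ j ^ s := h2
    _ = j ^ s * 1 := by ring
    _ ≤ j ^ s * d.choose s := Nat.mul_le_mul_left _ h3
    _ = _ := by push_cast; ring

/-- A set of at least `2 ^ r` numbers below `2 ^ j` contains a subset branching at `≥ r / q`
scales, if `j < 2 ^ q`. -/
theorem exists_branch (j r q : ℕ) (hj : j < 2 ^ q) (W : Finset ℕ) (hW : ∀ w ∈ W, w < 2 ^ j)
    (hcard : 2 ^ r ≤ W.card) :
    ∃ S : Finset ℕ, S ⊆ Finset.range j ∧ r ≤ S.card * q ∧
      ∃ A : Set ℕ, A ⊆ (↑W : Set ℕ) ∧ Branch A (↑S : Set ℕ) := by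
  by_contra hcon
  push Not at hcon
  have h1 := order_shatter j W hW
  rcases Nat.eq_zero_or_pos r with rfl | hr
  · obtain ⟨w, hw⟩ : W.Nonempty := by
      rw [← Finset.card_pos]
      simpa using hcard
    refine hcon ∅ (by simp) (by simp) {w} (by simpa using hw) ⟨⟨w, rfl⟩, ?_⟩
    intro a _ i hi
    simp at hi
  have h2 : ∀ S ∈ Tset j W, S.card * q < r := by
    intro S hS
    rw [mem_Tset] at hS
    obtain ⟨hSr, A, hA, hB⟩ := hS
    by_contra hlt
    exact hcon S hSr (by omega) A hA hB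
  rcases Nat.eq_zero_or_pos q with rfl | hq
  · have hj0 : j = 0 := by simpa using hj
    subst hj0
    have h3 := card_small_subsets 0 0 (Tset 0 W) (fun S hS => (mem_Tset.1 hS).1) (by
      intro S hS
      have := (mem_Tset.1 hS).1
      simp at this
      simp [this])
    have h4 : 2 ^ 1 ≤ 2 ^ r := Nat.pow_le_pow_right (by norm_num) hr
    simp at h3
    omega
  have h3 := card_small_subsets j ((r - 1) / q) (Tset j W) (fun S hS => (mem_Tset.1 hS).1) (by
    intro S hS
    rw [Nat.le_div_iff_mul_le hq]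
    have := h2 S hS
    omega)
  have h4 : (j + 1) ^ ((r - 1) / q) ≤ 2 ^ (r - 1) := by
    calc (j + 1) ^ ((r - 1) / q) ≤ (2 ^ q) ^ ((r - 1) / q) := Nat.pow_le_pow_left hj _
      _ = 2 ^ (q * ((r - 1) / q)) := by rw [pow_mul]
      _ ≤ 2 ^ (r - 1) := Nat.pow_le_pow_right (by norm_num) (Nat.mul_div_le _ _)
  have h5 : 2 ^ (r - 1) < 2 ^ r := Nat.pow_lt_pow_right (by norm_num) (by omega)
  omega

end Pool.Agent.Hhelper99.HFact
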