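import Mathlib
import Pool.Agent.Hhelper99.HFactA
import Pool.Agent.HFact.Count

set_option autoImplicit false

namespace Pool.Agent.Hhelper99.HFact

open Finset

/-- the allowed summands -/
def IsTerm (n d : ℕ) : Prop :=
  ∃ e w : ℕ, Odd w ∧ Squarefree w ∧ (∀ p, p.Prime → p ∣ w → p ≤ n) ∧ d = 2 ^ e * w

theorem IsTerm.two_pow (n e : ℕ) : IsTerm n (2 ^ e) := by
  refine ⟨e, 1, odd_one, squarefree_one, ?_, by ring⟩
  intro p hp h
  exact absurd (Nat.dvd_one.1 h) hp.one_lt.ne'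

theorem IsTerm.shift {n d : ℕ} (h : IsTerm n d) (e : ℕ) : IsTerm n (2 ^ e * d) := by
  obtain ⟨e', w, h1, h2, h3, rfl⟩ := h
  exact ⟨e + e', w, h1, h2, h3, by ring⟩

/-- sums of at most `K` allowed summands, each at most `2 ^ B` -/
def G (n K B : ℕ) : Set ℕ :=
  {x | ∃ s : Multiset ℕ, s.card ≤ K ∧ (∀ d ∈ s, IsTerm n d ∧ d ≤ 2 ^ B) ∧ s.sum = x}

/-- sums of at most `K` allowed summands -/
def R (n K : ℕ) : Set ℕ :=
  {x | ∃ s : Multiset ℕ, s.card ≤ K ∧ (∀ d ∈ s, IsTerm n d) ∧ s.sum = x}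

theorem G_le {n K B x : ℕ} (h : x ∈ G n K B) : x ≤ K * 2 ^ B := by
  obtain ⟨s, hs, hd, rfl⟩ := h
  have h1 := Multiset.sum_le_card_nsmul s (2 ^ B) (fun d hd' => (hd d hd').2)
  rw [smul_eq_mul] at h1
  exact h1.trans (Nat.mul_le_mul_right _ hs)

theorem G_sub_R {n K B : ℕ} : G n K B ⊆ R n K := by
  rintro x ⟨s, hs, hd, rfl⟩
  exact ⟨s, hs, fun d h => (hd d h).1, rfl⟩

theorem G_mono {n K K' B B' : ℕ} (hK : K ≤ K') (hB : B ≤ B') : G n K B ⊆ G n K' B' := by
  rintro x ⟨s, hs, hd, rfl⟩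
  exact ⟨s, hs.trans hK, fun d h => ⟨(hd d h).1,
    (hd d h).2.trans (Nat.pow_le_pow_right (by norm_num) hB)⟩, rfl⟩

theorem R_mono {n K K' : ℕ} (hK : K ≤ K') : R n K ⊆ R n K' := by
  rintro x ⟨s, hs, hd, rfl⟩
  exact ⟨s, hs.trans hK, hd, rfl⟩

theorem G_add {n K K' B a b : ℕ} (ha : a ∈ G n K B) (hb : b ∈ G n K' B) : a + b ∈ G n (K + K') B := by
  obtain ⟨s, hs, hd, rfl⟩ := ha
  obtain ⟨s', hs', hd', rfl⟩ := hb
  refine ⟨s + s', ?_, ?_, Multiset.sum_add _ _⟩
  · rw [Multiset.card_add]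
    exact Nat.add_le_add hs hs'
  · intro d h
    rcases Multiset.mem_add.1 h with h | h
    · exact hd d h
    · exact hd' d h

theorem R_add {n K K' a b : ℕ} (ha : a ∈ R n K) (hb : b ∈ R n K') : a + b ∈ R n (K + K') := by
  obtain ⟨s, hs, hd, rfl⟩ := ha
  obtain ⟨s', hs', hd', rfl⟩ := hb
  refine ⟨s + s', ?_, ?_, Multiset.sum_add _ _⟩
  · rw [Multiset.card_add]
    exact Nat.add_le_add hs hs'
  · intro d h
    rcases Multiset.mem_add.1 h with h | h
    · exact hd d h
    · exact hd' d h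

theorem sum_map_mul (c : ℕ) (s : Multiset ℕ) : (s.map (fun d => c * d)).sum = c * s.sum := by
  induction s using Multiset.induction_on with
  | empty => simp
  | cons a s ih => rw [Multiset.map_cons, Multiset.sum_cons, Multiset.sum_cons, ih, mul_add]

theorem G_shift {n K B x : ℕ} (h : x ∈ G n K B) (e : ℕ) : 2 ^ e * x ∈ G n K (B + e) := by
  obtain ⟨s, hs, hd, rfl⟩ := h
  refine ⟨s.map (fun d => 2 ^ e * d), by rwa [Multiset.card_map], ?_, sum_map_mul _ _⟩
  intro d h
  obtain ⟨d', hd', rfl⟩ := Multiset.mem_map.1 h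
  refine ⟨(hd d' hd').1.shift e, ?_⟩
  rw [pow_add, mul_comm (2 ^ B)]
  exact Nat.mul_le_mul_left _ (hd d' hd').2

theorem R_shift {n K x : ℕ} (h : x ∈ R n K) (e : ℕ) : 2 ^ e * x ∈ R n K := by
  obtain ⟨s, hs, hd, rfl⟩ := h
  refine ⟨s.map (fun d => 2 ^ e * d), by rwa [Multiset.card_map], ?_, sum_map_mul _ _⟩
  intro d h
  obtain ⟨d', hd', rfl⟩ := Multiset.mem_map.1 h
  exact (hd d' hd').shift e

theorem zero_mem_G (n K B : ℕ) : 0 ∈ G n K B := ⟨0, by simp, by simp, by simp⟩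

theorem zero_mem_R (n K : ℕ) : 0 ∈ R n K := ⟨0, by simp, by simp, by simp⟩

/-- Some set of sums of at most `K` summands `≤ 2 ^ B` is branching at the scales of `S`. -/
def Cov (n K B : ℕ) (S : Set ℕ) : Prop := ∃ A : Set ℕ, A ⊆ G n K B ∧ Branch A S

theorem Cov.mono {n K K' B B' : ℕ} {S S' : Set ℕ} (h : Cov n K B S) (hK : K ≤ K') (hB : B ≤ B')
    (hS : S' ⊆ S) : Cov n K' B' S' := by
  obtain ⟨A, hA, hb⟩ := h
  exact ⟨A, hA.trans (G_mono hK hB), hb.mono hS⟩

theorem Cov.add {n K K' B : ℕ} {S S' : Set ℕ} (h : Cov n K B S) (h' : Cov n K' B S') :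
    Cov n (K + K') B (S ∪ S') := by
  obtain ⟨A, hA, hb⟩ := h
  obtain ⟨A', hA', hb'⟩ := h'
  refine ⟨_, ?_, hb.add hb'⟩
  rintro x ⟨a, ha, b, hb, rfl⟩
  exact G_add (hA ha) (hA' hb)

theorem Cov.shift {n K B : ℕ} {S : Set ℕ} (h : Cov n K B S) (e : ℕ) :
    Cov n K (B + e) ((fun i => i + e) '' S) := by
  obtain ⟨A, hA, hb⟩ := h
  refine ⟨_, ?_, hb.shift e⟩
  rintro x ⟨a, ha, rfl⟩
  exact G_shift (hA ha) e

theorem Cov.empty (n K B : ℕ) : Cov n K B ∅ := by
  refine ⟨{0}, ?_, ⟨0, rfl⟩, ?_⟩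
  · rintro x hx
    rw [Set.mem_singleton_iff.1 hx]
    exact zero_mem_G n K B
  · intro a _ i hi
    exact absurd hi (Set.notMem_empty i)

theorem Cov.single (n i : ℕ) : Cov n 1 i {i} := by
  refine ⟨{0, 2 ^ i}, ?_, ⟨0, by simp⟩, ?_⟩
  · rintro x hx
    rcases hx with rfl | hx
    · exact zero_mem_G n 1 i
    · rw [Set.mem_singleton_iff.1 hx]
      refine ⟨{2 ^ i}, by simp, ?_, by simp⟩
      intro d hd
      rw [Multiset.mem_singleton.1 hd]
      exact ⟨IsTerm.two_pow n i, le_rfl⟩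
  · intro a ha i' hi'
    rw [Set.mem_singleton_iff.1 hi']
    rcases ha with rfl | ha
    · refine ⟨2 ^ i, by simp, ?_⟩
      rw [zero_add]
    · rw [Set.mem_singleton_iff.1 ha]
      refine ⟨0, by simp, ?_⟩
      have : 2 ^ i + 2 ^ i = 2 ^ (i + 1) := by ring
      rw [this]
      exact (Nat.modEq_zero_iff_dvd.2 dvd_rfl).symm

theorem Cov.initial (n B : ℕ) : ∀ q, q ≤ B → Cov n q B (Set.Iio q) := by
  intro q
  induction q with
  | zero => intro _; exact (Cov.empty n 0 B).mono le_rfl le_rfl (by simp)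
  | succ q ih =>
    intro hq
    have h1 := (ih (by omega)).add ((Cov.single n q).mono le_rfl (by omega : q ≤ B) subset_rfl)
    refine h1.mono le_rfl le_rfl ?_
    intro x hx
    rw [Set.mem_Iio] at hx
    rcases Nat.lt_succ_iff_lt_or_eq.1 hx with h | h
    · exact Or.inl h
    · exact Or.inr h

/-- greedy choice of one shift -/
theorem exists_shift (j : ℕ) (S : Finset ℕ) (hS : S ⊆ Finset.range j) (U : Finset ℕ)
    (hU : ∀ u ∈ U, j ≤ u ∧ u < 2 * j) (hj : 0 < j) :
    ∃ e < 2 * j, U.card * S.card ≤ (U.filter (fun u => ∃ s ∈ S, s + e = u)).card * (2 * j) := by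
  by_contra hcon
  push Not at hcon
  have h1 : ∑ e ∈ Finset.range (2 * j), (U.filter (fun u => ∃ s ∈ S, s + e = u)).card
      = ∑ u ∈ U, ((Finset.range (2 * j)).filter (fun e => ∃ s ∈ S, s + e = u)).card := by
    simp only [Finset.card_filter]
    exact Finset.sum_comm
  have h2 : U.card * S.card ≤
      ∑ u ∈ U, ((Finset.range (2 * j)).filter (fun e => ∃ s ∈ S, s + e = u)).card := by
    rw [← smul_eq_mul, ← Finset.sum_const]
    apply Finset.sum_le_sum
    intro u hu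
    apply Finset.card_le_card_of_injOn (fun s => u - s)
    · intro s hs
      have hs' := Finset.mem_range.1 (hS hs)
      have hu' := hU u hu
      simp only [Finset.coe_filter, Finset.mem_range, Set.mem_ofPred_eq]
      exact ⟨by omega, s, hs, by omega⟩
    · intro s hs s' hs' h
      have h3 := Finset.mem_range.1 (hS hs)
      have h4 := Finset.mem_range.1 (hS hs')
      have hu' := hU u hu
      have h5 : u - s = u - s' := h
      omega
  have h3 : (∑ e ∈ Finset.range (2 * j), (U.filter (fun u => ∃ s ∈ S, s + e = u)).card) * (2 * j)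
      < 2 * j * (U.card * S.card) := by
    rw [Finset.sum_mul]
    have h4 : ∑ e ∈ Finset.range (2 * j), (U.card * S.card) = 2 * j * (U.card * S.card) := by
      rw [Finset.sum_const, Finset.card_range, smul_eq_mul]
    rw [← h4]
    apply Finset.sum_lt_sum_of_nonempty
    · exact ⟨0, Finset.mem_range.2 (by omega)⟩
    · intro e he
      exact hcon e (Finset.mem_range.1 he)
  rw [h1] at h3
  have h5 := Nat.mul_le_mul_right (2 * j) h2
  have h6 : U.card * S.card * (2 * j) = 2 * j * (U.card * S.card) := by ring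
  omega

theorem greedy {n B j M : ℕ} (S : Finset ℕ) (hS : S ⊆ Finset.range j) (hj : 0 < j)
    (hM : 2 * j ≤ S.card * M) (hC : Cov n 1 B (↑S : Set ℕ)) (U : Finset ℕ)
    (hU : ∀ u ∈ U, j ≤ u ∧ u < 2 * j) (k : ℕ) :
    ∃ U' ⊆ U, Cov n k (B + 2 * j) (↑(U \ U') : Set ℕ) ∧ U'.card * M ^ k ≤ U.card * (M - 1) ^ k := by
  have hM1 : 1 ≤ M := by
    by_contra h
    have : M = 0 := by omega
    rw [this] at hM
    omega
  induction k with
  | zero =>
    refine ⟨U, subset_rfl, ?_, by simp⟩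
    rw [Finset.sdiff_self, Finset.coe_empty]
    exact Cov.empty _ _ _
  | succ k ih =>
    obtain ⟨U', hU', hcov, hcard⟩ := ih
    obtain ⟨e, he, hshift⟩ := exists_shift j S hS U' (fun u hu => hU u (hU' hu)) hj
    set F := U'.filter (fun u => ∃ s ∈ S, s + e = u) with hF
    refine ⟨U' \ F, Finset.sdiff_subset.trans hU', ?_, ?_⟩
    · have h1 := hcov.add ((hC.shift e).mono le_rfl (by omega : B + e ≤ B + 2 * j) subset_rfl)
      refine h1.mono le_rfl le_rfl ?_
      intro u hu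
      rw [Finset.mem_coe, Finset.mem_sdiff, Finset.mem_sdiff, not_and_not_right] at hu
      by_cases h : u ∈ U'
      · right
        have hF' := hu.2 h
        rw [hF, Finset.mem_filter] at hF'
        obtain ⟨_, s, hs, hse⟩ := hF'
        exact ⟨s, hs, hse⟩
      · left
        rw [Finset.mem_coe, Finset.mem_sdiff]
        exact ⟨hu.1, h⟩
    · have hFsub : F ⊆ U' := Finset.filter_subset _ _
      have hcs : (U' \ F).card + F.card = U'.card := Finset.card_sdiff_add_card_eq_card hFsub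
      -- F.card * M ≥ U'.card
      have h2 : U'.card ≤ F.card * M := by
        have h3 : U'.card * S.card * M ≤ F.card * (2 * j) * M := Nat.mul_le_mul_right _ hshift
        have h4 : U'.card * (2 * j) ≤ U'.card * (S.card * M) := Nat.mul_le_mul_left _ hM
        have h5 : (2 * j) * U'.card ≤ (2 * j) * (F.card * M) := by
          calc (2 * j) * U'.card = U'.card * (2 * j) := by ring
            _ ≤ U'.card * (S.card * M) := h4
            _ = U'.card * S.card * M := by ring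
            _ ≤ F.card * (2 * j) * M := h3
            _ = (2 * j) * (F.card * M) := by ring
        exact Nat.le_of_mul_le_mul_left h5 (by omega)
      have h6 : (U' \ F).card * M ≤ U'.card * (M - 1) := by
        obtain ⟨m, rfl⟩ : ∃ m, M = m + 1 := ⟨M - 1, by omega⟩
        have h7 : (m + 1 - 1) = m := by omega
        rw [h7]
        have h8 : (U' \ F).card * (m + 1) + F.card * (m + 1) = U'.card * (m + 1) := by
          rw [← Nat.add_mul, hcs]
        have h9 : U'.card * (m + 1) = U'.card * m + U'.card := by ring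
        omega
      calc (U' \ F).card * M ^ (k + 1) = ((U' \ F).card * M) * M ^ k := by ring
        _ ≤ (U'.card * (M - 1)) * M ^ k := Nat.mul_le_mul_right _ h6
        _ = (U'.card * M ^ k) * (M - 1) := by ring
        _ ≤ (U.card * (M - 1) ^ k) * (M - 1) := Nat.mul_le_mul_right _ hcard
        _ = U.card * (M - 1) ^ (k + 1) := by ring

theorem two_mul_pow_le (M : ℕ) (hM : 1 ≤ M) : 2 * (M - 1) ^ M ≤ M ^ M := by
  obtain ⟨m, rfl⟩ : ∃ m, M = m + 1 := ⟨M - 1, by omega⟩
  have h1 : m + 1 - 1 = m := by omega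
  rw [h1]
  rcases Nat.eq_zero_or_pos m with rfl | hm
  · simp
  have h2 : (m : ℝ) ≠ 0 := by positivity
  have h3 := one_add_mul_le_pow (a := (1 : ℝ) / m) (by
    have : (0 : ℝ) ≤ 1 / m := by positivity
    linarith) (m + 1)
  have h4 : (2 : ℝ) ≤ 1 + ((m + 1 : ℕ) : ℝ) * (1 / m) := by
    have : ((m + 1 : ℕ) : ℝ) * (1 / m) = 1 + 1 / m := by
      push_cast
      field_simp
    rw [this]
    have : (0 : ℝ) ≤ 1 / m := by positivity
    linarith
  have h5 : (2 : ℝ) * (m : ℝ) ^ (m + 1) ≤ ((m : ℝ) + 1) ^ (m + 1) := by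
    have h6 : ((m : ℝ) + 1) ^ (m + 1) = (1 + 1 / m) ^ (m + 1) * (m : ℝ) ^ (m + 1) := by
      rw [← mul_pow]
      congr 1
      field_simp
    rw [h6]
    exact mul_le_mul_of_nonneg_right (h4.trans h3) (by positivity)
  exact_mod_cast h5

/-- all scales in `[j, 2j)` at once -/
theorem cov_level {n B j M q : ℕ} (S : Finset ℕ) (hS : S ⊆ Finset.range j) (hj : 0 < j)
    (hM : 2 * j ≤ S.card * M) (hC : Cov n 1 B (↑S : Set ℕ)) (hjq : j < 2 ^ q) :
    Cov n (M * q) (B + 2 * j) (Set.Ico j (2 * j)) := by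
  have hM1 : 1 ≤ M := by
    by_contra h
    have : M = 0 := by omega
    rw [this] at hM
    omega
  obtain ⟨U', hU', hcov, hcard⟩ := greedy S hS hj hM hC (Finset.Ico j (2 * j))
    (fun u hu => Finset.mem_Ico.1 hu) (M * q)
  have hU0 : U' = ∅ := by
    rw [← Finset.card_eq_zero]
    by_contra h0
    have h1 : 1 ≤ U'.card := Nat.one_le_iff_ne_zero.2 h0
    rw [Nat.card_Ico, show 2 * j - j = j by omega] at hcard
    have h2 : 2 ^ q * (M - 1) ^ (M * q) ≤ M ^ (M * q) := by
      rw [pow_mul, pow_mul, ← mul_pow]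
      exact Nat.pow_le_pow_left (two_mul_pow_le M hM1) q
    have h3 : M ^ (M * q) ≤ j * (M - 1) ^ (M * q) := by
      calc M ^ (M * q) = 1 * M ^ (M * q) := by ring
        _ ≤ U'.card * M ^ (M * q) := Nat.mul_le_mul_right _ h1
        _ ≤ _ := hcard
    have h4 : 0 < M ^ (M * q) := by positivity
    have h5 : 0 < (M - 1) ^ (M * q) := by
      by_contra h6
      have : (M - 1) ^ (M * q) = 0 := by omega
      rw [this] at h3
      omega
    have h6 : j * (M - 1) ^ (M * q) < 2 ^ q * (M - 1) ^ (M * q) := Nat.mul_lt_mul_of_pos_right hjq h5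
    omega
  rw [hU0, Finset.sdiff_empty, Finset.coe_Ico] at hcov
  exact hcov

end Pool.Agent.Hhelper99.HFact
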