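import Mathlib
import Pool.Agent.Hhelper99.HFactB
import Pool.Agent.HFact.Count

set_option autoImplicit false

namespace Pool.Agent.Hhelper99.HFact

open Finset

/-- one dyadic level -/
theorem cov_dyadic {n r : ℕ} (hn : 32 ≤ n) (hr1 : 1 ≤ r) (hr : 4 * r * Nat.log 2 n ≤ n) :
    Cov n (2 * (Nat.log 2 n + 1) ^ 2 * (Nat.log 2 n + 1)) (3 * ((Nat.log 2 n + 1) * r))
      (Set.Ico ((Nat.log 2 n + 1) * r) (2 * ((Nat.log 2 n + 1) * r))) := by
  set l := Nat.log 2 n + 1 with hl
  have hlog : 5 ≤ Nat.log 2 n := Nat.le_log_of_pow_le (by norm_num) (by norm_num; exact hn)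
  have hnl : n < 2 ^ l := Nat.lt_pow_succ_log_self (by norm_num) n
  obtain ⟨W, hWc, hW⟩ := _root_.HFact.exists_prod_primes hn hr
  have hj : l * r < 2 ^ l := by
    have h1 : l * r ≤ 4 * r * Nat.log 2 n := by
      rw [hl]
      nlinarith
    omega
  have hWlt : ∀ w ∈ W, w < 2 ^ (l * r) := by
    intro w hw
    have h1 := (hW w hw).2.2.2.2.2
    have h2 : n ^ r < (2 ^ l) ^ r := Nat.pow_lt_pow_left hnl (by omega)
    rw [← pow_mul] at h2
    omega
  obtain ⟨S, hS, hSr, A, hA, hB⟩ := exists_branch (l * r) r l hj W hWlt hWc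
  have hcov : Cov n 1 (l * r) (↑S : Set ℕ) := by
    refine ⟨A, ?_, hB⟩
    intro a ha
    have haW : a ∈ W := hA ha
    obtain ⟨h1, h2, h3, h4, h5, h6⟩ := hW a haW
    refine ⟨{a}, by simp, ?_, by simp⟩
    intro d hd
    rw [Multiset.mem_singleton.1 hd]
    exact ⟨⟨0, a, h2, h3, h5, by ring⟩, (hWlt a haW).le⟩
  have hM : 2 * (l * r) ≤ S.card * (2 * l ^ 2) := by
    have : 2 * l * r ≤ 2 * l * (S.card * l) := Nat.mul_le_mul_left _ hSr
    calc 2 * (l * r) = 2 * l * r := by ring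
      _ ≤ 2 * l * (S.card * l) := this
      _ = _ := by ring
  have hlpos : 0 < l := by omega
  have h := cov_level S hS (Nat.mul_pos hlpos hr1) hM hcov hj
  exact h.mono le_rfl (by omega) subset_rfl

/-- all scales below `l * 2 ^ t` -/
theorem cov_all {n : ℕ} (hn : 32 ≤ n) (t : ℕ) (ht : 4 * 2 ^ t * Nat.log 2 n ≤ n) :
    Cov n ((Nat.log 2 n + 1) + t * (2 * (Nat.log 2 n + 1) ^ 3)) (3 * ((Nat.log 2 n + 1) * 2 ^ t))
      (Set.Iio ((Nat.log 2 n + 1) * 2 ^ t)) := by
  set l := Nat.log 2 n + 1 with hl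
  induction t with
  | zero =>
    have h := Cov.initial n (3 * (l * 2 ^ 0)) l (by omega)
    refine h.mono (by omega) le_rfl ?_
    intro x hx
    simpa using hx
  | succ t ih =>
    have ht' : 4 * 2 ^ t * Nat.log 2 n ≤ n := by
      refine le_trans ?_ ht
      exact Nat.mul_le_mul_right _ (Nat.mul_le_mul_left _ (Nat.pow_le_pow_right (by norm_num) (by omega)))
    have h1 := ih ht'
    have h2 := cov_dyadic hn (Nat.one_le_two_pow (n := t)) ht'
    rw [← hl] at h2
    have h3 := h1.add h2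
    have hb : 3 * (l * 2 ^ t) ≤ 3 * (l * 2 ^ (t + 1)) :=
      Nat.mul_le_mul_left _ (Nat.mul_le_mul_left _ (Nat.pow_le_pow_right (by norm_num) (by omega)))
    refine h3.mono (le_of_eq (by ring)) hb ?_
    intro x hx
    rw [Set.mem_Iio] at hx
    have h4 : l * 2 ^ (t + 1) = 2 * (l * 2 ^ t) := by ring
    by_cases h : x < l * 2 ^ t
    · exact Or.inl h
    · exact Or.inr ⟨by omega, by omega⟩

theorem binary_rep (n : ℕ) : ∀ q N : ℕ, N < 2 ^ q → N ∈ R n q := by
  intro q
  induction q with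
  | zero =>
    intro N hN
    have : N = 0 := by simpa using hN
    rw [this]
    exact zero_mem_R _ _
  | succ q ih =>
    intro N hN
    have h1 : N / 2 < 2 ^ q := by
      rw [pow_succ] at hN
      omega
    have h2 := R_shift (ih _ h1) 1
    have h3 : N % 2 ∈ R n 1 := by
      rcases Nat.mod_two_eq_zero_or_one N with h | h
      · rw [h]
        exact zero_mem_R _ _
      · rw [h]
        refine ⟨{1}, by simp, ?_, by simp⟩
        intro d hd
        rw [Multiset.mem_singleton.1 hd]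
        exact IsTerm.two_pow n 0
    have h4 := R_add h2 h3
    have h5 : 2 ^ 1 * (N / 2) + N % 2 = N := by omega
    rwa [h5] at h4

theorem cube_bound : ∀ l : ℕ, 3 * l ^ 4 ≤ 2 ^ (3 * l) := by
  intro l
  rcases Nat.lt_or_ge l 4 with h | h
  · interval_cases l <;> norm_num
  · induction l, h using Nat.le_induction with
    | base => norm_num
    | succ l hl ih =>
      have h1 : (l + 1) ^ 4 ≤ 8 * l ^ 4 := by
        have h2 : (l + 1) * 4 ≤ l * 5 := by omega
        have h3 : ((l + 1) * 4) ^ 4 ≤ (l * 5) ^ 4 := Nat.pow_le_pow_left h2 4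
        rw [mul_pow, mul_pow] at h3
        norm_num at h3
        omega
      calc 3 * (l + 1) ^ 4 ≤ 8 * (3 * l ^ 4) := by omega
        _ ≤ 8 * 2 ^ (3 * l) := Nat.mul_le_mul_left _ ih
        _ = 2 ^ (3 * (l + 1)) := by ring

/-- the recursion inside one dyadic level -/
theorem rep_step {n K k J : ℕ} (hcov : Cov n K (3 * J) (Set.Iio J)) (hK : K ≤ 2 ^ (3 * J))
    (hbase : ∀ N < 2 ^ (6 * J), N ∈ R n k) (s : ℕ) :
    ∀ N < 2 ^ ((6 + s) * J), N ∈ R n (k + s * K) := by
  induction s with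
  | zero =>
    intro N hN
    have := hbase N (by simpa using hN)
    simpa using this
  | succ s ih =>
    intro N hN
    by_cases hsmall : N < 2 ^ (6 * J)
    · exact R_mono (by omega) (hbase N hsmall)
    · obtain ⟨A, hA, hB⟩ := hcov
      obtain ⟨x, hx, hxN⟩ := hB.cover N
      have hxG := hA hx
      have hxle := G_le hxG
      have hx6 : x ≤ 2 ^ (6 * J) := by
        calc x ≤ K * 2 ^ (3 * J) := hxle
          _ ≤ 2 ^ (3 * J) * 2 ^ (3 * J) := Nat.mul_le_mul_right _ hK
          _ = 2 ^ (6 * J) := by rw [← pow_add]; congr 1; ring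
      have hxN' : x ≤ N := by omega
      obtain ⟨N', hN'⟩ : 2 ^ J ∣ N - x := (Nat.modEq_iff_dvd' hxN').1 hxN
      have hN'lt : N' < 2 ^ ((6 + s) * J) := by
        by_contra hge
        push Not at hge
        have h1 : 2 ^ J * 2 ^ ((6 + s) * J) ≤ 2 ^ J * N' := Nat.mul_le_mul_left _ hge
        rw [← pow_add, ← hN'] at h1
        have h2 : J + (6 + s) * J = (6 + (s + 1)) * J := by ring
        rw [h2] at h1
        omega
      have h3 := R_add (G_sub_R hxG) (R_shift (ih N' hN'lt) J)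
      rw [← hN'] at h3
      have h4 : x + (N - x) = N := by omega
      rw [h4] at h3
      refine R_mono ?_ h3
      have : (s + 1) * K = s * K + K := by ring
      omega

theorem rep_level {n : ℕ} (hn : 32 ≤ n) (t : ℕ) (ht : 4 * 2 ^ t * Nat.log 2 n ≤ n) :
    ∀ N < 2 ^ (6 * ((Nat.log 2 n + 1) * 2 ^ (t + 1))),
      N ∈ R n (6 * (Nat.log 2 n + 1) + (t + 1) * (18 * (Nat.log 2 n + 1) ^ 4)) := by
  set l := Nat.log 2 n + 1 with hl
  have hlog : 5 ≤ Nat.log 2 n := Nat.le_log_of_pow_le (by norm_num) (by norm_num; exact hn)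
  have key : ∀ t, 4 * 2 ^ t * Nat.log 2 n ≤ n →
      ∀ k, (∀ N < 2 ^ (6 * (l * 2 ^ t)), N ∈ R n k) →
      ∀ N < 2 ^ (6 * (l * 2 ^ (t + 1))), N ∈ R n (k + 18 * l ^ 4) := by
    intro t ht k hk N hN
    have hcov := cov_all hn t ht
    rw [← hl] at hcov
    have htl : t + 1 ≤ l := by
      rw [hl]
      have h1 : 2 ^ t ≤ n := by
        have : 2 ^ t ≤ 4 * 2 ^ t * Nat.log 2 n := by nlinarith [Nat.one_le_two_pow (n := t)]
        omega
      have := Nat.le_log_of_pow_le (by norm_num : 1 < 2) h1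
      omega
    have hKle : l + t * (2 * l ^ 3) ≤ 3 * l ^ 4 := by
      have h1 : t * (2 * l ^ 3) ≤ l * (2 * l ^ 3) := Nat.mul_le_mul_right _ (by omega)
      have h2 : l * 1 ≤ l * l ^ 3 := Nat.mul_le_mul_left _ (Nat.one_le_pow _ _ (by omega))
      nlinarith
    have hK : 3 * l ^ 4 ≤ 2 ^ (3 * (l * 2 ^ t)) := by
      refine (cube_bound l).trans (Nat.pow_le_pow_right (by norm_num) ?_)
      have : l * 1 ≤ l * 2 ^ t := Nat.mul_le_mul_left _ (Nat.one_le_two_pow)
      omega
    have h := rep_step (hcov.mono hKle le_rfl subset_rfl) hK hk 6 N (by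
      have : (6 + 6) * (l * 2 ^ t) = 6 * (l * 2 ^ (t + 1)) := by ring
      rwa [this])
    refine R_mono ?_ h
    omega
  induction t with
  | zero =>
    have hb : ∀ N < 2 ^ (6 * (l * 2 ^ 0)), N ∈ R n (6 * l) := by
      intro N hN
      exact binary_rep n _ N (by simpa using hN)
    intro N hN
    have := key 0 ht (6 * l) hb N hN
    exact R_mono (by omega) this
  | succ t ih =>
    have ht' : 4 * 2 ^ t * Nat.log 2 n ≤ n := by
      refine le_trans ?_ ht
      exact Nat.mul_le_mul_right _ (Nat.mul_le_mul_left _ (Nat.pow_le_pow_right (by norm_num) (by omega)))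
    intro N hN
    have := key (t + 1) ht _ (ih ht') N hN
    refine R_mono ?_ this
    apply le_of_eq
    ring

/-- Every `N < 2 ^ (n / 2)` is a sum of polylogarithmically many allowed summands. -/
theorem rep (n : ℕ) (hn : 32 ≤ n) (N : ℕ) (hN : N < 2 ^ (n / 2)) :
    N ∈ R n (24 * (Nat.log 2 n + 1) ^ 5) := by
  set l := Nat.log 2 n + 1 with hl
  have hlog : 5 ≤ Nat.log 2 n := Nat.le_log_of_pow_le (by norm_num) (by norm_num; exact hn)
  have hlogn : 4 * Nat.log 2 n ≤ n := by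
    have h3 : 2 ^ Nat.log 2 n ≤ n := Nat.pow_log_le_self 2 (by omega)
    have h4 : ∀ m : ℕ, 5 ≤ m → 4 * m ≤ 2 ^ m := by
      intro m hm
      induction m, hm using Nat.le_induction with
      | base => norm_num
      | succ m hm ih => rw [pow_succ]; omega
    exact (h4 _ hlog).trans h3
  -- the largest admissible `t`
  set m := n / (4 * Nat.log 2 n) with hm
  have hm1 : 1 ≤ m := by
    rw [hm, Nat.one_le_div_iff (by omega)]
    exact hlogn
  set t := Nat.log 2 m with ht
  have ht1 : 2 ^ t ≤ m := Nat.pow_log_le_self 2 (by omega)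
  have ht2 : m < 2 ^ (t + 1) := Nat.lt_pow_succ_log_self (by norm_num) m
  have htn : 4 * 2 ^ t * Nat.log 2 n ≤ n := by
    have h1 : 2 ^ t * (4 * Nat.log 2 n) ≤ m * (4 * Nat.log 2 n) := Nat.mul_le_mul_right _ ht1
    have h2 : m * (4 * Nat.log 2 n) ≤ n := Nat.div_mul_le_self _ _
    calc 4 * 2 ^ t * Nat.log 2 n = 2 ^ t * (4 * Nat.log 2 n) := by ring
      _ ≤ n := h1.trans h2
  have hbig : n / 2 ≤ 6 * (l * 2 ^ (t + 1)) := by
    have h1 : n < 4 * Nat.log 2 n * (m + 1) := by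
      have := Nat.lt_mul_div_succ n (by omega : 0 < 4 * Nat.log 2 n)
      rwa [← hm] at this
    have h2 : 4 * Nat.log 2 n * (m + 1) ≤ 4 * l * 2 ^ (t + 1) :=
      Nat.mul_le_mul (by omega) (by omega)
    have h3 : 4 * l * 2 ^ (t + 1) = 4 * (l * 2 ^ (t + 1)) := by ring
    omega
  have htl : t + 1 ≤ l := by
    rw [hl]
    have h1 : 2 ^ t ≤ n := by
      have h5 := Nat.one_le_two_pow (n := t)
      have : 2 ^ t ≤ 4 * 2 ^ t * Nat.log 2 n := by nlinarith
      omega
    have := Nat.le_log_of_pow_le (by norm_num : 1 < 2) h1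
    omega
  have h := rep_level hn t htn N (lt_of_lt_of_le hN (Nat.pow_le_pow_right (by norm_num) hbig))
  rw [← hl] at h
  refine R_mono ?_ h
  have h1 : (t + 1) * (18 * l ^ 4) ≤ l * (18 * l ^ 4) := Nat.mul_le_mul_right _ htl
  have h2 : l * (18 * l ^ 4) = 18 * l ^ 5 := by ring
  have h3 : l * 1 ≤ l * l ^ 4 := Nat.mul_le_mul_left _ (Nat.one_le_pow _ _ (by omega))
  have h4 : l * l ^ 4 = l ^ 5 := by ring
  omega

end Pool.Agent.Hhelper99.HFact
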